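import Mathlib

namespace Pool.Agent.Results.MP_75f39d_co.SelfDual
open Finset

/-- The incidence structure with point set `U` and blocks `N b` (`b : V`) is self-dual: there are
bijections points → blocks and blocks → points reversing incidence. -/
def IsSelfDual {U V : Type} (N : V → Finset U) : Prop :=
  ∃ (α : U ≃ V) (β : V ≃ U), ∀ x b, x ∈ N b ↔ β b ∈ N (α x)

/-- `A` is the union-closed family generated by the blocks `N b`, with or without the empty
set: every member is a union of blocks and every nonempty union of blocks is a member. -/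
def Generates {U V : Type} [DecidableEq U] (N : V → Finset U) (A : Finset (Finset U)) : Prop :=
  (∀ S ∈ A, ∃ I : Finset V, S = I.biUnion N) ∧
    ∀ I : Finset V, (I.biUnion N).Nonempty → I.biUnion N ∈ A

theorem result (U V : Type) [Fintype U] [DecidableEq U] [Fintype V] (N : V → Finset U)
    (A : Finset (Finset U)) (hN : IsSelfDual N) (hA : Generates N A) (hne : A.Nonempty)
    (huniv : ∀ x : U, ∃ S ∈ A, x ∈ S)
    (hsep : ∀ x y : U, x ≠ y → ∃ S ∈ A, ¬ (x ∈ S ↔ y ∈ S)) (hnp : A ≠ univ) :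
    ∃ x : U, A.card < 2 * (A.filter fun S => x ∈ S).card := by
  classical
  obtain ⟨α, β, hd⟩ := hN
  by_contra hcon
  push Not at hcon
  let G : Finset (Finset U) := insert ∅ A
  have hG : ∀ S, S ∈ G ↔ ∃ I : Finset V, S = I.biUnion N := by
    intro S
    constructor
    · intro h
      rcases Finset.mem_insert.1 h with rfl | h
      · exact ⟨∅, by simp⟩
      · exact hA.1 S h
    · rintro ⟨I, rfl⟩
      rcases (I.biUnion N).eq_empty_or_nonempty with h | h
      · rw [h]; exact Finset.mem_insert_self _ _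
      · exact Finset.mem_insert_of_mem (hA.2 I h)
  have hfr : ∀ x, (G.filter fun S => x ∈ S) = A.filter fun S => x ∈ S := fun x => by
    simp [G, Finset.filter_insert]
  let Φ : Finset U → Finset U := fun S => (Sᶜ.image α).biUnion N
  have hΦ : ∀ S b, β b ∈ Φ S ↔ ¬ N b ⊆ S := by
    intro S b
    simp only [Φ, mem_biUnion, mem_image, mem_compl, exists_exists_and_eq_and, ← hd,
      Finset.not_subset]
    exact ⟨fun ⟨x, h1, h2⟩ => ⟨x, h2, h1⟩, fun ⟨x, h1, h2⟩ => ⟨x, h2, h1⟩⟩
  have hsub : ∀ S ∈ G, ∀ T, Φ S = Φ T → S ⊆ T := by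
    intro S hS T h x hx
    obtain ⟨I, rfl⟩ := (hG S).1 hS
    obtain ⟨b, hb, hxb⟩ := Finset.mem_biUnion.1 hx
    have h1 : β b ∉ Φ T := by
      rw [← h, hΦ, not_not]; exact Finset.subset_biUnion_of_mem N hb
    rw [hΦ, not_not] at h1
    exact h1 hxb
  have hcnt : ∀ b, (G.filter fun S => ¬ N b ⊆ S).card ≤ (A.filter fun S => β b ∈ S).card := by
    intro b
    rw [← hfr]
    refine Finset.card_le_card_of_injOn Φ (fun S hS => ?_) fun S hS T hT h => ?_
    · exact Finset.mem_coe.2 (Finset.mem_filter.2 ⟨(hG _).2 ⟨_, rfl⟩,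
        (hΦ S b).2 (Finset.mem_filter.1 hS).2⟩)
    · exact Finset.Subset.antisymm (hsub S (Finset.mem_filter.1 hS).1 T h)
        (hsub T (Finset.mem_filter.1 hT).1 S h.symm)
  have hAG : A.card ≤ G.card := Finset.card_le_card (Finset.subset_insert _ _)
  have key : ∀ x b, x ∈ N b → G.card ≤ A.card ∧ ∀ S ∈ G, x ∈ S → N b ⊆ S := by
    intro x b hx
    have h1 := hcnt b
    have h2 := hcon (β b)
    have h3 := hcon x
    have h4 := Finset.card_filter_add_card_filter_not (s := G) (fun S => x ∈ S)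
    rw [hfr] at h4
    have h5 : (G.filter fun S => ¬ x ∈ S) ⊆ G.filter fun S => ¬ N b ⊆ S := fun S hS =>
      Finset.mem_filter.2 ⟨(Finset.mem_filter.1 hS).1, fun h => (Finset.mem_filter.1 hS).2 (h hx)⟩
    have h6 := Finset.card_le_card h5
    refine ⟨by omega, fun S hS hxS => ?_⟩
    by_contra hh
    have h7 := Finset.eq_of_subset_of_card_le h5 (by omega)
    have : S ∈ G.filter fun S => ¬ x ∈ S := h7 ▸ Finset.mem_filter.2 ⟨hS, hh⟩
    exact (Finset.mem_filter.1 this).2 hxS
  have hb : ∀ x, ∃ b, N b = {x} := by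
    intro x
    obtain ⟨S, hS, hx⟩ := huniv x
    obtain ⟨I, rfl⟩ := hA.1 S hS
    obtain ⟨b, _, hxb⟩ := Finset.mem_biUnion.1 hx
    refine ⟨b, Finset.eq_singleton_iff_unique_mem.2 ⟨hxb, fun y hy => ?_⟩⟩
    by_contra hne
    obtain ⟨T, hT, h⟩ := hsep y x hne
    exact h ⟨fun h => (key y b hy).2 T (Finset.mem_insert_of_mem hT) h hxb,
      fun h => (key x b hxb).2 T (Finset.mem_insert_of_mem hT) h hy⟩
  choose g hg using hb
  have hGu : ∀ S, S ∈ G := fun S => (hG S).2 ⟨S.image g, by
    rw [Finset.image_biUnion]; simp [hg]⟩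
  apply hnp
  rcases isEmpty_or_nonempty U with h | ⟨⟨x⟩⟩
  · obtain ⟨S, hS⟩ := hne
    exact Finset.eq_univ_of_forall fun T => by rwa [Subsingleton.elim T S]
  · have := Finset.eq_of_subset_of_card_le (Finset.subset_insert ∅ A)
      (key x (g x) (by simp [hg])).1
    exact Finset.eq_univ_of_forall fun T => this ▸ hGu T

end Pool.Agent.Results.MP_75f39d_co.SelfDual
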